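import Pool.Agent.MP_3ce0a0_al.H15.PLen

/-! The height function and the relations between Whitehead moves in the automorphism group. -/

namespace Pool.Agent.MP_3ce0a0_al.H15

open FreeGroup

/-- number of letters with index `i` in the three images -/
def len (i : Fin 3) (Y : E3) : ℕ := ell i (Y (of 0)) + ell i (Y (of 1)) + ell i (Y (of 2))

/-- capacity of a set -/
def cap (A : St) (Y : E3) : ℕ :=
  cutF A false (Y (of 0)).toWord + cutF A false (Y (of 1)).toWord + cutF A false (Y (of 2)).toWord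

/-- the height -/
def N (Y : E3) : ℕ := (Y (of 0)).norm + (Y (of 1)).norm + (Y (of 2)).norm

lemma cnt_sum (w : List L) : cnt 0 w + cnt 1 w + cnt 2 w = w.length := by
  induction w with
  | nil => rfl
  | cons y w ih =>
    obtain ⟨i, b⟩ := y
    simp only [cnt_cons, List.length_cons]
    fin_cases i <;> simp <;> omega

lemma N_eq (Y : E3) : N Y = len 0 Y + len 1 Y + len 2 Y := by
  simp only [N, len, ell, FreeGroup.norm, ← cnt_sum]
  omega

lemma len_V_eq {A : St} {a : L} (h : ok A a = true) (Y : E3) :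
    len a.1 (V A a * Y) = cap A Y := by
  simp only [len, cap, mul_ap, ell_V_eq h]

lemma len_V_ne {A : St} {a : L} (h : ok A a = true) {i : Fin 3} (hi : i ≠ a.1) (Y : E3) :
    len i (V A a * Y) = len i Y := by
  simp only [len, mul_ap, ell_V_ne h hi]

lemma N_V {A : St} {a : L} (h : ok A a = true) (Y : E3) :
    N (V A a * Y) + len a.1 Y = N Y + cap A Y := by
  have h1 := len_V_eq h Y
  have h2 := fun i hi => len_V_ne h (i := i) hi Y
  rw [N_eq, N_eq]
  obtain ⟨i, b⟩ := a
  fin_cases i
  · have := h2 1 (by simp); have := h2 2 (by simp); simp at *; omega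
  · have := h2 0 (by simp); have := h2 2 (by simp); simp at *; omega
  · have := h2 0 (by simp); have := h2 1 (by simp); simp at *; omega

lemma cap_sub (A B : St) (Y : E3) :
    cap (fun y => A y && B y) Y + cap (fun y => A y || B y) Y ≤ cap A Y + cap B Y := by
  have h := fun w => cutF_sub A B w false false
  have h0 := h (Y (of 0)).toWord
  have h1 := h (Y (of 1)).toWord
  have h2 := h (Y (of 2)).toWord
  simp only [cap, Bool.and_self, Bool.or_self] at *
  omega

lemma cap_pos (A B : St) (Y : E3) :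
    cap (fun y => A y && !B y) Y + cap (fun y => B y && !A y) Y ≤ cap A Y + cap B Y := by
  have h := fun w => cutF_pos A B w false false
  have h0 := h (Y (of 0)).toWord
  have h1 := h (Y (of 1)).toWord
  have h2 := h (Y (of 2)).toWord
  simp only [cap, Bool.false_and] at *
  omega

lemma norm_S (σ : SP) (u : F3) : (S σ u).norm ≤ u.norm := by
  conv_lhs => rw [← mk_toWord (x := u), S, hom_mk (inv_S σ)]
  refine norm_mk_le.trans (le_of_eq ?_)
  simp [FreeGroup.norm, List.length_flatMap]

lemma S_mul (τ σ : SP) : S τ * S σ = S (mulS τ σ) := by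
  refine end_ext fun i => ?_
  rw [mul_ap, S, S, S, hom_of, hom_of, hom_one (inv_S τ)]
  fin_cases i <;> rfl

lemma S_one : S oneS = 1 := by
  refine end_ext fun i => ?_
  rw [S, hom_of]
  fin_cases i <;> rfl

lemma t_t (k : Fin 3) : mulS (t k) (t k) = oneS := by revert k; decide

lemma t_one (k : Fin 3) : mulS (t k) oneS = t k := by revert k; decide

lemma ok_t (k : Fin 3) : okS (t k) = true := by revert k; decide

lemma ok_mul (k : Fin 3) {σ : SP} (h : okS σ = true) : okS (mulS (t k) σ) = true := by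
  have : ∀ k : Fin 3, allSP.all (fun σ => !okS σ || okS (mulS (t k) σ)) = true := by
    decide +kernel
  simpa [h] using all_SP (this k) σ

lemma T_T (k : Fin 3) (Y : E3) : S (t k) * (S (t k) * Y) = Y := by
  rw [← mul_assoc, S_mul, t_t, S_one, one_mul]

lemma N_T (k : Fin 3) (Y : E3) : N (S (t k) * Y) = N Y := by
  have h : ∀ Y : E3, N (S (t k) * Y) ≤ N Y := fun Y =>
    Nat.add_le_add (Nat.add_le_add (norm_S _ _) (norm_S _ _)) (norm_S _ _)
  refine le_antisymm (h Y) ?_
  have := h (S (t k) * Y)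
  rwa [T_T] at this

lemma act_t_t (k : Fin 3) (y : L) : act (t k) (act (t k) y) = y := by revert k y; decide

lemma act_t_fst (k : Fin 3) (a b : L) : (act (t k) a).1 = (act (t k) b).1 ↔ a.1 = b.1 := by
  revert k a b; decide

/-- the translate of a set -/
def tr (k : Fin 3) (A : St) : St := fun y => A (act (t k) y)

lemma ok_tr (k : Fin 3) {A : St} {a : L} (h : ok A a = true) :
    ok (tr k A) (act (t k) a) = true := by
  simpa only [ok, tr, ← act_iv, act_t_t] using h

lemma V_T (k : Fin 3) (A : St) (a : L) :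
    V (tr k A) (act (t k) a) * S (t k) = S (t k) * V A a := by
  have h : ∀ k : Fin 3, allSt.all (fun A => lets.all fun a =>
      same [wV (tr k A) (act (t k) a), fun y => [act (t k) y]]
        [fun y => [act (t k) y], wV A a]) = true := by decide +kernel
  have := same_eq (by simp [inv_wV, inv_S]) (by simp [inv_wV, inv_S]) (all_L (all_St (h k) A) a)
  simpa [evE, V, S] using this

lemma V_sg (a : L) : V (sg a) a = 1 := by
  have h : lets.all (fun a => same [wV (sg a) a] []) = true := by decide +kernel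
  have := same_eq (by simp [inv_wV]) (by simp) (all_L h a)
  simpa [evE, V] using this

lemma V_r1 {A B : St} {c : Bool} (hA : ok A x0 = true) (hB : ok B (0, c) = true)
    (h : compat A B = true) : ok (qS A B (0, c)) (qL A B (0, c)) = true ∧
      V A x0 = V (qS A B (0, c)) (qL A B (0, c)) * V B (0, c) := by
  have k : ∀ c : Bool, allSt.all (fun A => !ok A x0 || allSt.all fun B =>
      !ok B (0, c) || (!compat A B || (ok (qS A B (0, c)) (qL A B (0, c)) &&
        same [wV A x0] [wV (qS A B (0, c)) (qL A B (0, c)), wV B (0, c)]))) = true := by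
    decide +kernel
  have k1 := all_St (k c) A
  simp only [hA, Bool.not_true, Bool.false_or] at k1
  have k2 := all_St k1 B
  simp only [hB, h, Bool.not_true, Bool.false_or, Bool.and_eq_true] at k2
  refine ⟨k2.1, ?_⟩
  have := same_eq (by simp [inv_wV]) (by simp [inv_wV]) k2.2
  simpa [evE, V] using this

lemma V_r5 {A : St} (h0 : ok A x0 = true) (h1 : ok A x1 = true) : ok (flip A x1) x0 = true ∧
    V A x0 = S (t 1) * (S (t 0) * (V (flip A x1) x0 * V A x1)) := by
  have k : allSt.all (fun A => !ok A x0 || (!ok A x1 || (ok (flip A x1) x0 &&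
      same [wV A x0] [fun y => [act (t 1) y], fun y => [act (t 0) y], wV (flip A x1) x0,
        wV A x1]))) = true := by decide +kernel
  have k1 := all_St k A
  simp only [h0, h1, Bool.not_true, Bool.false_or, Bool.and_eq_true] at k1
  refine ⟨k1.1, ?_⟩
  have := same_eq (by simp [inv_wV]) (by simp [inv_wV, inv_S]) k1.2
  simpa [evE, V, S] using this

lemma V_r2 {A B : St} (hA : ok A x0 = true) (hB : ok B x1 = true) (h : compat A B = true)
    (hs : (sep A x1 && sep B x0) = false) :
    ok (tS A x0 B) (tL A x0 B x1) = true ∧ ok (tS B x1 A) (tL B x1 A x0) = true ∧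
      V (tS A x0 B) (tL A x0 B x1) * V A x0 = V (tS B x1 A) (tL B x1 A x0) * V B x1 := by
  have k : allSt.all (fun A => !ok A x0 || allSt.all fun B =>
      !ok B x1 || (!compat A B || ((sep A x1 && sep B x0) ||
        (ok (tS A x0 B) (tL A x0 B x1) && (ok (tS B x1 A) (tL B x1 A x0) &&
        same [wV (tS A x0 B) (tL A x0 B x1), wV A x0]
          [wV (tS B x1 A) (tL B x1 A x0), wV B x1]))))) = true := by
    decide +kernel
  have k1 := all_St k A
  simp only [hA, Bool.not_true, Bool.false_or] at k1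
  have k2 := all_St k1 B
  simp only [hB, h, hs, Bool.not_true, Bool.false_or, Bool.and_eq_true] at k2
  refine ⟨k2.1, k2.2.1, ?_⟩
  have := same_eq (by simp [inv_wV]) (by simp [inv_wV]) k2.2.2
  simpa [evE, V] using this

lemma tL_fst (A : St) (a : L) (B : St) (b : L) : (tL A a B b).1 = b.1 := by
  unfold tL; split_ifs <;> rfl

lemma N_r2 {A B : St} (hA : ok A x0 = true) (hB : ok B x1 = true) (h : compat A B = true)
    (hs : (sep A x1 && sep B x0) = false) (Y : E3) :
    N (V (tS A x0 B) (tL A x0 B x1) * (V A x0 * Y)) + N Y = N (V A x0 * Y) + N (V B x1 * Y) := by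
  obtain ⟨h1, h2, h3⟩ := V_r2 hA hB h hs
  have e : V (tS A x0 B) (tL A x0 B x1) * (V A x0 * Y) =
      V (tS B x1 A) (tL B x1 A x0) * (V B x1 * Y) := by rw [← mul_assoc, h3, mul_assoc]
  have a0 := len_V_ne h1 (i := 0) (by rw [tL_fst]; decide) (V A x0 * Y)
  have a2 := len_V_ne h1 (i := 2) (by rw [tL_fst]; decide) (V A x0 * Y)
  have a1 := len_V_ne h2 (i := 1) (by rw [tL_fst]; decide) (V B x1 * Y)
  rw [← e] at a1
  have b1 := len_V_ne hA (i := 1) (by decide) Y
  have b0 := len_V_ne hB (i := 0) (by decide) Y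
  have b2 := len_V_ne hB (i := 2) (by decide) Y
  simp only [N_eq]
  omega

lemma S_of (σ : SP) (i : Fin 3) : S σ (of i) = FreeGroup.mk [gen σ i] := hom_of _ i

lemma S_inj {σ τ : SP} (h : S σ = S τ) : σ = τ := by
  have k : ∀ i, gen σ i = gen τ i := fun i => by
    have := congrArg toWord (congrArg (fun X : E3 => X (of i)) h)
    simpa [S_of, reduce_singleton] using this
  exact Prod.ext (k 0) (Prod.ext (k 1) (k 2))

lemma base_triv {σ : SP} (hσ : okS σ = true) {A : St} {a : L} (h : ok A a = true)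
    (hN : N (V A a * S σ) ≤ N (S σ)) : N (S σ) ≤ N (V A a * S σ) ∧ A = sg a := by
  have h1 := N_V h (S σ)
  have k : allSP.all (fun σ => !okS σ || lets.all fun a => allSt.all fun A => !ok A a ||
      (decide (cnt a.1 [gen σ 0] + cnt a.1 [gen σ 1] + cnt a.1 [gen σ 2] <
        cutF A false [gen σ 0] + cutF A false [gen σ 1] + cutF A false [gen σ 2]) ||
      (decide (cnt a.1 [gen σ 0] + cnt a.1 [gen σ 1] + cnt a.1 [gen σ 2] =
        cutF A false [gen σ 0] + cutF A false [gen σ 1] + cutF A false [gen σ 2]) &&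
        lets.all fun y => A y == sg a y))) = true := by decide +kernel
  have k1 := all_SP k σ
  simp only [hσ, Bool.not_true, Bool.false_or] at k1
  have k2 := all_St (all_L k1 a) A
  simp only [h, Bool.not_true, Bool.false_or, Bool.or_eq_true, Bool.and_eq_true,
    decide_eq_true_eq] at k2
  simp only [len, cap, ell, S_of, toWord_mk, reduce_singleton] at h1
  rcases k2 with k2 | k2
  · omega
  · refine ⟨by omega, funext fun y => ?_⟩
    simpa using all_L k2.2 y

/-- normal words of the 48 signed permutations -/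
def wds : List (List (Fin 3)) :=
  [[], [0], [1], [2], [1, 0], [2, 0], [0, 1], [2, 1], [1, 2], [0, 1, 0], [2, 1, 0], [1, 2, 0],
   [1, 0, 1], [2, 0, 1], [1, 2, 1], [0, 1, 2], [1, 0, 1, 0], [2, 0, 1, 0], [1, 2, 1, 0],
   [0, 1, 2, 0], [2, 1, 0, 1], [1, 2, 0, 1], [0, 1, 2, 1], [1, 0, 1, 2], [2, 1, 0, 1, 0],
   [1, 2, 0, 1, 0], [0, 1, 2, 1, 0], [1, 0, 1, 2, 0], [1, 2, 1, 0, 1], [0, 1, 2, 0, 1],
   [1, 0, 1, 2, 1], [2, 1, 0, 1, 2], [1, 2, 1, 0, 1, 0], [0, 1, 2, 0, 1, 0], [1, 0, 1, 2, 1, 0],
   [2, 1, 0, 1, 2, 0], [0, 1, 2, 1, 0, 1], [1, 0, 1, 2, 0, 1], [2, 1, 0, 1, 2, 1],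
   [0, 1, 2, 1, 0, 1, 0], [1, 0, 1, 2, 0, 1, 0], [2, 1, 0, 1, 2, 1, 0], [1, 0, 1, 2, 1, 0, 1],
   [2, 1, 0, 1, 2, 0, 1], [1, 0, 1, 2, 1, 0, 1, 0], [2, 1, 0, 1, 2, 0, 1, 0],
   [2, 1, 0, 1, 2, 1, 0, 1], [2, 1, 0, 1, 2, 1, 0, 1, 0]]

/-- the signed permutation of a word -/
def evS : List (Fin 3) → SP
  | [] => oneS
  | k :: w => mulS (t k) (evS w)

lemma ok_evS (w : List (Fin 3)) : okS (evS w) = true := by
  induction w with
  | nil => decide
  | cons k w ih => exact ok_mul k ih

lemma exists_word {σ : SP} (h : okS σ = true) : ∃ w, evS w = σ := by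
  have k : allSP.all (fun σ => !okS σ || wds.any fun w => evS w == σ) = true := by
    decide +kernel
  have k1 := all_SP k σ
  simp only [h, Bool.not_true, Bool.false_or, List.any_eq_true, beq_iff_eq] at k1
  obtain ⟨w, -, hw⟩ := k1
  exact ⟨w, hw⟩

/-- the action of a word on letters, first letter first -/
def acW : List (Fin 3) → L → L
  | [], a => a
  | k :: w, a => acW w (act (t k) a)

lemma exists_norm (a b : L) : ∃ w, acW w a = x0 ∧ ((acW w b).1 = 0 ∨ acW w b = x1) := by
  have k : lets.all (fun a => lets.all fun b => wds.any fun w =>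
      acW w a == x0 && ((acW w b).1 == 0 || acW w b == x1)) = true := by decide +kernel
  have k1 := all_L (all_L k a) b
  simp only [List.any_eq_true, Bool.and_eq_true, Bool.or_eq_true, beq_iff_eq] at k1
  obtain ⟨w, -, hw⟩ := k1
  exact ⟨w, hw⟩

end Pool.Agent.MP_3ce0a0_al.H15
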