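import Mathlib

/-! A finite presentation of `Aut F_3` by Whitehead moves and signed permutations: definitions. -/

namespace Pool.Agent.MP_3ce0a0_al.H15

open FreeGroup

/-- letters -/
abbrev L : Type := Fin 3 × Bool
/-- the free group of rank three -/
abbrev F3 : Type := FreeGroup (Fin 3)
/-- sets of letters -/
abbrev St : Type := L → Bool
/-- triples of letters: the images of the three generators under a signed permutation -/
abbrev SP : Type := L × L × L

/-- the inverse letter -/
def iv (y : L) : L := (y.1, !y.2)

/-- `a` lies in `A` and its inverse does not -/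
def ok (A : St) (a : L) : Bool := A a && !A (iv a)

/-- the image of the letter `y` under the Whitehead move `(A, a)` -/
def wV (A : St) (a y : L) : List L :=
  (if A y then [a] else []) ++
    ((if y.1 = a.1 then [] else [y]) ++ (if A (iv y) then [iv a] else []))

/-- exchange `a` and its inverse in `A` -/
def flip (A : St) (a : L) : St := fun y => if y.1 = a.1 then !A y else A y

/-- the triple is a signed permutation -/
def okS (σ : SP) : Bool :=
  σ.1.1 != σ.2.1.1 && (σ.1.1 != σ.2.2.1 && σ.2.1.1 != σ.2.2.1)

/-- the image of the generator `i` -/
def gen (σ : SP) (i : Fin 3) : L := if i = 0 then σ.1 else if i = 1 then σ.2.1 else σ.2.2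

/-- the action of a signed permutation on letters -/
def act (σ : SP) (y : L) : L := if y.2 then gen σ y.1 else iv (gen σ y.1)

/-- composition of signed permutations -/
def mulS (τ σ : SP) : SP := (act τ σ.1, act τ σ.2.1, act τ σ.2.2)

/-- the identity -/
def oneS : SP := ((0, true), (1, true), (2, true))

/-- three involutions that generate the signed permutations -/
def t (k : Fin 3) : SP :=
  if k = 0 then ((0, false), (1, true), (2, true))
  else if k = 1 then ((1, true), (0, true), (2, true)) else ((0, true), (2, true), (1, true))

/-- all letters -/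
def lets : List L := [(0, false), (0, true), (1, false), (1, true), (2, false), (2, true)]

/-- inclusion -/
def sub (A B : St) : Bool := lets.all fun y => !A y || B y

/-- disjointness -/
def dis (A B : St) : Bool := lets.all fun y => !(A y && B y)

/-- nested or disjoint -/
def compat (A B : St) : Bool := dis A B || (sub A B || sub B A)

/-- `A` contains exactly one of `b` and its inverse -/
def sep (A : St) (b : L) : Bool := A b != A (iv b)

/-- the first generator -/
def x0 : L := (0, true)
/-- the second generator -/
def x1 : L := (1, true)

/-- letter of the quotient of two compatible moves with the same index -/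
def qL (A B : St) (b : L) : L := if b.2 && !sub B A then iv x0 else x0

/-- set of the quotient of two compatible moves with the same index -/
def qS (A B : St) (b : L) : St := fun y => if y.1 = 0 then y.2 == (qL A B b).2 else A y != B y

/-- transport of the set `B` across the move `(A, a)` -/
def tS (A : St) (a : L) (B : St) : St := fun y =>
  if sep B a then (if y.1 = a.1 then (y.2 == a.2) == sub A B else A y != B y) else B y

/-- transport of the letter `b` -/
def tL (A : St) (a : L) (B : St) (b : L) : L := if tS A a B b then b else iv b

/-- the set with one element -/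
def sg (a : L) : St := fun y => y.1 == a.1 && y.2 == a.2

/-- the relations -/
structure Rel {Q : Type} [Group Q] (e : St → L → Q) (s : SP → Q) : Prop where
  sm : ∀ k σ, okS σ = true → s (mulS (t k) σ) = s (t k) * s σ
  cj : ∀ k A a, ok A a = true →
    e (fun y => A (act (t k) y)) (act (t k) a) * s (t k) = s (t k) * e A a
  tr : ∀ a, e (sg a) a = 1
  inv : ∀ A a, ok A a = true → e (flip A a) (iv a) * e A a = 1
  r1 : ∀ A B c, ok A x0 = true → ok B (0, c) = true → compat A B = true →
    e A x0 = e (qS A B (0, c)) (qL A B (0, c)) * e B (0, c)
  r5 : ∀ A, ok A x0 = true → ok A x1 = true →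
    e A x0 = s (t 1) * (s (t 0) * (e (flip A x1) x0 * e A x1))
  r2 : ∀ A B, ok A x0 = true → ok B x1 = true → compat A B = true →
    (sep A x1 && sep B x0) = false →
    e (tS A x0 B) (tL A x0 B x1) * e A x0 = e (tS B x1 A) (tL B x1 A x0) * e B x1

/-- the presentation theorem -/
def SPres : Prop :=
  ∀ (Q : Type) [Group Q] (e : St → L → Q) (s : SP → Q), Rel e s →
    ∃ φ : MulAut F3 →* Q,
      (∀ (α : MulAut F3) (A : St) (a : L), ok A a = true →
        (∀ i, α (of i) = FreeGroup.mk (wV A a (i, true))) → φ α = e A a) ∧
      (∀ (α : MulAut F3) (σ : SP), okS σ = true →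
        (∀ i, α (of i) = FreeGroup.mk [gen σ i]) → φ α = s σ)

/-- the set with the given six membership values -/
def mk6 (b0 b1 b2 b3 b4 b5 : Bool) : St := fun y =>
  if y.1 = 0 then (if y.2 then b1 else b0)
  else if y.1 = 1 then (if y.2 then b3 else b2) else (if y.2 then b5 else b4)

/-- both truth values -/
def bb : List Bool := [false, true]

/-- all 64 sets -/
def allSt : List St :=
  bb.flatMap fun b0 => bb.flatMap fun b1 => bb.flatMap fun b2 => bb.flatMap fun b3 =>
    bb.flatMap fun b4 => bb.map fun b5 => mk6 b0 b1 b2 b3 b4 b5

/-- all triples of letters -/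
def allSP : List SP := lets.flatMap fun a => lets.flatMap fun b => lets.map fun c => (a, b, c)

lemma mem_lets (y : L) : y ∈ lets := by revert y; decide

lemma mem_bb (b : Bool) : b ∈ bb := by revert b; decide

lemma mem_allSt (A : St) : A ∈ allSt := by
  have : A = mk6 (A (0, false)) (A (0, true)) (A (1, false)) (A (1, true)) (A (2, false))
      (A (2, true)) := by
    funext y
    obtain ⟨i, b⟩ := y
    fin_cases i <;> cases b <;> rfl
  rw [this]
  simp only [allSt, List.mem_flatMap, List.mem_map]
  exact ⟨_, mem_bb _, _, mem_bb _, _, mem_bb _, _, mem_bb _, _, mem_bb _, _, mem_bb _, rfl⟩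

lemma mem_allSP (σ : SP) : σ ∈ allSP := by
  simp only [allSP, List.mem_flatMap, List.mem_map]
  exact ⟨_, mem_lets _, _, mem_lets _, _, mem_lets _, rfl⟩

lemma all_St {p : St → Bool} (h : allSt.all p = true) (A : St) : p A = true :=
  List.all_eq_true.1 h A (mem_allSt A)

lemma all_L {p : L → Bool} (h : lets.all p = true) (y : L) : p y = true :=
  List.all_eq_true.1 h y (mem_lets y)

lemma all_SP {p : SP → Bool} (h : allSP.all p = true) (σ : SP) : p σ = true :=
  List.all_eq_true.1 h σ (mem_allSP σ)

end Pool.Agent.MP_3ce0a0_al.H15
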