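import Pool.Agent.MP_3ce0a0_al.H15.PDefs

/-! Lengths and cuts: a Whitehead move changes one length, to the capacity of its cut. -/

namespace Pool.Agent.MP_3ce0a0_al.H15

open FreeGroup

/-- endomorphisms -/
abbrev E3 : Type := Monoid.End F3

/-- the endomorphism given by a substitution -/
def hom (f : L → List L) : E3 := FreeGroup.lift fun i => FreeGroup.mk (f (i, true))

/-- the substitution respects inverses -/
def Inv (f : L → List L) : Prop := ∀ y, f (iv y) = invRev (f y)

@[simp] lemma iv_iv (y : L) : iv (iv y) = y := by simp [iv]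

@[simp] lemma iv_fst (y : L) : (iv y).1 = y.1 := rfl

lemma mk_iv (y : L) : FreeGroup.mk [iv y] = (FreeGroup.mk [y])⁻¹ := by
  rw [inv_mk]; rfl

lemma mk_cons (y : L) (w : List L) :
    FreeGroup.mk (y :: w) = FreeGroup.mk [y] * FreeGroup.mk w := by
  rw [mul_mk]; rfl

lemma hom_of (f : L → List L) (i : Fin 3) : hom f (of i) = FreeGroup.mk (f (i, true)) :=
  lift_apply_of

lemma hom_one {f : L → List L} (hf : Inv f) (y : L) :
    hom f (FreeGroup.mk [y]) = FreeGroup.mk (f y) := by
  obtain ⟨i, b⟩ := y
  cases b
  · have : ((i, false) : L) = iv (i, true) := rfl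
    rw [this, mk_iv, _root_.map_inv, hf, ← inv_mk]
    exact congrArg _ (hom_of f i)
  · exact hom_of f i

lemma hom_mk {f : L → List L} (hf : Inv f) (w : List L) :
    hom f (FreeGroup.mk w) = FreeGroup.mk (w.flatMap f) := by
  induction w with
  | nil => exact _root_.map_one _
  | cons y w ih => rw [mk_cons, _root_.map_mul, ih, hom_one hf, mul_mk, List.flatMap_cons]

lemma end_ext {X Y : E3} (h : ∀ i, X (of i) = Y (of i)) : X = Y := FreeGroup.ext_hom _ _ h

lemma mul_ap (X Y : E3) (u : F3) : (X * Y) u = X (Y u) := rfl

/-- the Whitehead move -/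
def V (A : St) (a : L) : E3 := hom (wV A a)

/-- the signed permutation -/
def S (σ : SP) : E3 := hom fun y => [act σ y]

lemma inv_wV (A : St) (a : L) : Inv (wV A a) := by
  intro y
  unfold wV
  rw [iv_iv, iv_fst, invRev_append, invRev_append, List.append_assoc]
  congr 1
  · split_ifs
    · simp [invRev, iv]
    · rfl
  · congr 1 <;> split_ifs <;> rfl

lemma act_iv (σ : SP) (y : L) : act σ (iv y) = iv (act σ y) := by
  obtain ⟨i, b⟩ := y
  cases b <;> simp [act, iv]

lemma inv_S (σ : SP) : Inv fun y => [act σ y] := by
  intro y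
  simp only [act_iv]; rfl

/-- number of letters with index `i` -/
def cnt (i : Fin 3) (w : List L) : ℕ := w.countP fun y => y.1 = i

/-- the same for the reduced word -/
def ell (i : Fin 3) (u : F3) : ℕ := cnt i u.toWord

lemma ell_le (i : Fin 3) (v : List L) : ell i (FreeGroup.mk v) ≤ cnt i v := by
  unfold ell cnt
  rw [toWord_mk]
  exact (Red.sublist reduce.red).countP_le

/-- capacity of the cut along a word -/
def cutF (A : St) : Bool → List L → ℕ
  | p, [] => p.toNat
  | p, y :: w => (p != A y).toNat + cutF A (A (iv y)) w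

lemma cutF_tri (A : St) (p q : Bool) (w : List L) : cutF A p w ≤ (p != q).toNat + cutF A q w := by
  cases w with
  | nil => cases p <;> cases q <;> simp [cutF]
  | cons y w => cases p <;> cases q <;> cases h : A y <;> simp [cutF, h] <;> omega

lemma cutF_reduce (A : St) (w : List L) : ∀ p, cutF A p (reduce w) ≤ cutF A p w := by
  induction w with
  | nil => intro p; exact le_rfl
  | cons x w ih =>
    intro p
    have h1 : cutF A p (x :: reduce w) ≤ cutF A p (x :: w) := by
      simp only [cutF]; exact Nat.add_le_add_left (ih _) _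
    refine le_trans ?_ h1
    rw [reduce.cons]
    cases reduce w with
    | nil => exact le_rfl
    | cons hd tl =>
      dsimp only
      split_ifs with h
      · have e : x = iv hd := Prod.ext h.1 h.2
        subst e
        have := cutF_tri A p (A (iv hd)) tl
        simp only [cutF, iv_iv]
        omega
      · exact le_rfl

lemma cutF_sub (A B : St) (w : List L) : ∀ p q,
    cutF (fun y => A y && B y) (p && q) w + cutF (fun y => A y || B y) (p || q) w ≤
      cutF A p w + cutF B q w := by
  induction w with
  | nil => intro p q; cases p <;> cases q <;> simp [cutF]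
  | cons y w ih =>
    intro p q
    have := ih (A (iv y)) (B (iv y))
    simp only [cutF]
    cases p <;> cases q <;> cases A y <;> cases B y <;> simp <;> omega

lemma cutF_pos (A B : St) (w : List L) : ∀ p q,
    cutF (fun y => A y && !B y) (p && !q) w + cutF (fun y => B y && !A y) (q && !p) w ≤
      cutF A p w + cutF B q w := by
  induction w with
  | nil => intro p q; cases p <;> cases q <;> simp [cutF]
  | cons y w ih =>
    intro p q
    have := ih (A (iv y)) (B (iv y))
    simp only [cutF]
    cases p <;> cases q <;> cases A y <;> cases B y <;> simp <;> omega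

lemma cnt_append (i : Fin 3) (v w : List L) : cnt i (v ++ w) = cnt i v + cnt i w :=
  List.countP_append

lemma cnt_cons (i : Fin 3) (y : L) (w : List L) :
    cnt i (y :: w) = (if y.1 = i then 1 else 0) + cnt i w := by
  unfold cnt
  rw [List.countP_cons, Nat.add_comm]
  simp

lemma cnt_nil (i : Fin 3) : cnt i [] = 0 := rfl

/-- telescoping -/
lemma upper (A : St) (a : L) (w : List L) : ∀ p : Bool, ∃ v : List L,
    FreeGroup.mk v = FreeGroup.mk (if p then [iv a] else []) * V A a (FreeGroup.mk w) ∧
      cnt a.1 v = cutF A p w ∧ ∀ i, i ≠ a.1 → cnt i v ≤ cnt i w := by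
  induction w with
  | nil =>
    intro p
    refine ⟨if p then [iv a] else [], ?_, ?_, ?_⟩
    · rw [← one_eq_mk, _root_.map_one, mul_one]
    · cases p <;> simp [cutF, cnt_cons, cnt_nil]
    · intro i hi
      cases p <;> simp [cnt_cons, cnt_nil, hi.symm]
  | cons y w ih =>
    intro p
    obtain ⟨v, h1, h2, h3⟩ := ih (A (iv y))
    refine ⟨(if p = A y then [] else if p then [iv a] else [a]) ++
      ((if y.1 = a.1 then [] else [y]) ++ v), ?_, ?_, ?_⟩
    · rw [mk_cons y w, _root_.map_mul, V, hom_one (inv_wV A a), wV, ← mul_mk, ← mul_mk, ← mul_mk,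
        ← mul_mk, h1, V]
      generalize FreeGroup.mk (if y.1 = a.1 then [] else [y]) = m1
      generalize FreeGroup.mk (if A (iv y) = true then [iv a] else []) = m2
      cases p <;> cases A y <;> simp [mk_iv, ← one_eq_mk, mul_assoc, -mul_mk, -inv_mk]
    · rw [cnt_append, cnt_append, h2, cutF]
      by_cases hy : y.1 = a.1 <;> cases p <;> cases A y <;> simp [cnt_cons, cnt_nil, hy]
    · intro i hi
      have := h3 i hi
      rw [cnt_append, cnt_append, cnt_cons]
      by_cases hy : y.1 = a.1 <;> cases p <;> cases A y <;>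
        simp [cnt_cons, cnt_nil, hy, hi.symm] <;> omega

lemma eq_or_iv {y a : L} (h : y.1 = a.1) : y = a ∨ y = iv a := by
  revert y a; decide

lemma ne_iv (a : L) : a ≠ iv a := by revert a; decide

lemma ok_iff {A : St} {a : L} : ok A a = true ↔ A a = true ∧ A (iv a) = false := by
  simp [ok]

lemma ok_flip {A : St} {a : L} (h : ok A a = true) : ok (flip A a) (iv a) = true := by
  rw [ok_iff] at h ⊢
  simp [flip, h.1, h.2]

lemma flip_flip (A : St) (a : L) : flip (flip A a) (iv a) = A := by
  funext y
  by_cases h : y.1 = a.1 <;> simp [flip, h]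

lemma lower (A : St) (a : L) (h : ok A a = true) (v : List L) : ∀ p : Bool,
    cutF A p (v.flatMap (wV (flip A a) (iv a))) ≤ p.toNat + cnt a.1 v := by
  obtain ⟨h1, h2⟩ := ok_iff.1 h
  induction v with
  | nil => intro p; simp [cutF, cnt_nil]
  | cons y v ih =>
    intro p
    have i0 := ih false
    have i1 := ih true
    rw [List.flatMap_cons, cnt_cons]
    by_cases hy : y.1 = a.1
    · rcases eq_or_iv hy with rfl | rfl
      · cases p <;> simp [wV, flip, h1, h2, cutF] at i0 ⊢ <;> omega
      · cases p <;> simp [wV, flip, h1, h2, cutF] at i1 ⊢ <;> omega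
    · cases p <;> cases h3 : A y <;> cases h4 : A (iv y) <;>
        simp [wV, flip, h1, h2, h3, h4, hy, cutF] at i0 ⊢ <;> omega

/-- equality test for products of substitutions -/
def evL : List (L → List L) → List L → List L
  | [], w => w
  | f :: fs, w => (evL fs w).flatMap f

/-- the product of the endomorphisms -/
def evE : List (L → List L) → E3
  | [] => 1
  | f :: fs => hom f * evE fs

lemma evE_mk (fs : List (L → List L)) (h : ∀ f ∈ fs, Inv f) (w : List L) :
    evE fs (FreeGroup.mk w) = FreeGroup.mk (evL fs w) := by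
  induction fs with
  | nil => rfl
  | cons f fs ih =>
    rw [evE, mul_ap, ih fun g hg => h g (List.mem_cons_of_mem _ hg), evL,
      hom_mk (h f List.mem_cons_self)]

/-- the test -/
def same (fs gs : List (L → List L)) : Bool :=
  [0, 1, 2].all fun i : Fin 3 => reduce (evL fs [(i, true)]) == reduce (evL gs [(i, true)])

lemma same_eq {fs gs : List (L → List L)} (hf : ∀ f ∈ fs, Inv f) (hg : ∀ f ∈ gs, Inv f)
    (h : same fs gs = true) : evE fs = evE gs := by
  refine end_ext fun i => ?_
  have := List.all_eq_true.1 h i (by revert i; decide)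
  change evE fs (FreeGroup.mk [(i, true)]) = evE gs (FreeGroup.mk [(i, true)])
  rw [evE_mk fs hf, evE_mk gs hg]
  exact reduce.exact (by simpa using this)

lemma V_inv {A : St} {a : L} (h : ok A a = true) : V (flip A a) (iv a) * V A a = 1 := by
  have k : allSt.all (fun A => lets.all fun a =>
      !ok A a || same [wV (flip A a) (iv a), wV A a] []) = true := by decide +kernel
  have k1 := all_L (all_St k A) a
  simp only [h, Bool.not_true, Bool.false_or] at k1
  have := same_eq (by simp [inv_wV]) (by simp) k1
  simpa [evE, V] using this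

lemma ell_V_eq {A : St} {a : L} (h : ok A a = true) (u : F3) :
    ell a.1 (V A a u) = cutF A false u.toWord := by
  apply le_antisymm
  · obtain ⟨v, h1, h2, -⟩ := upper A a u.toWord false
    rw [mk_toWord] at h1
    have : V A a u = FreeGroup.mk v := by rw [h1]; simp [← one_eq_mk]
    rw [this, ← h2]
    exact ell_le _ _
  · have e : u = FreeGroup.mk ((V A a u).toWord.flatMap (wV (flip A a) (iv a))) := by
      rw [← hom_mk (inv_wV _ _), mk_toWord]
      change u = (V (flip A a) (iv a) * V A a) u
      rw [V_inv h]; rfl
    have := lower A a h (V A a u).toWord false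
    have k := cutF_reduce A ((V A a u).toWord.flatMap (wV (flip A a) (iv a))) false
    rw [← toWord_mk, ← e] at k
    simp only [Bool.toNat_false, Nat.zero_add] at this
    exact k.trans this

lemma ell_V_le (A : St) (a : L) {i : Fin 3} (hi : i ≠ a.1) (u : F3) :
    ell i (V A a u) ≤ ell i u := by
  obtain ⟨v, h1, -, h3⟩ := upper A a u.toWord false
  rw [mk_toWord] at h1
  have : V A a u = FreeGroup.mk v := by rw [h1]; simp [← one_eq_mk]
  rw [this]
  exact (ell_le _ _).trans (h3 i hi)

lemma ell_V_ne {A : St} {a : L} (h : ok A a = true) {i : Fin 3} (hi : i ≠ a.1) (u : F3) :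
    ell i (V A a u) = ell i u := by
  refine le_antisymm (ell_V_le A a hi u) ?_
  have := ell_V_le (flip A a) (iv a) hi (V A a u)
  rwa [← mul_ap, V_inv h] at this

end Pool.Agent.MP_3ce0a0_al.H15
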