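import Pool.Agent.MP_3ce0a0_al.H15.PAut
import Pool.Agent.MP_3ce0a0_al.H28.Niel

/-! Peak reduction: the presentation theorem for `Aut F_3`. -/

namespace Pool.Agent.MP_3ce0a0_al.H15

open FreeGroup

variable {Q : Type} [Group Q] {e : St → L → Q} {s : SP → Q}

/-- the value attached to an endomorphism along a descending path to a signed permutation -/
inductive D (e : St → L → Q) (s : SP → Q) : E3 → Q → Prop
  | base (σ : SP) (h : okS σ = true) : D e s (S σ) (s σ)
  | step (Y : E3) (q : Q) (A : St) (a : L) (h : ok A a = true)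
      (hd : D e s (V A a * Y) (e A a * q)) (hl : N (V A a * Y) < N Y) : D e s Y q

lemma Rel.s_one (R : Rel e s) : s oneS = 1 := by
  have := R.sm 0 oneS (by decide)
  rw [t_one] at this
  exact (mul_eq_left.1 this.symm)

lemma Rel.s_t_t (R : Rel e s) (k : Fin 3) (q : Q) : s (t k) * (s (t k) * q) = q := by
  rw [← mul_assoc, ← R.sm k _ (ok_t k), t_t, R.s_one, one_mul]

lemma e_T (R : Rel e s) (k : Fin 3) {A : St} {a : L} (h : ok A a = true) (q : Q) :
    e (tr k A) (act (t k) a) * (s (t k) * q) = s (t k) * (e A a * q) := by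
  rw [← mul_assoc, ← mul_assoc]
  exact congrArg (· * q) (R.cj k A a h)

lemma V_T' (k : Fin 3) (A : St) (a : L) (Y : E3) :
    V (tr k A) (act (t k) a) * (S (t k) * Y) = S (t k) * (V A a * Y) := by
  rw [← mul_assoc, V_T, mul_assoc]

lemma D_T (R : Rel e s) (k : Fin 3) {Y : E3} {q : Q} (h : D e s Y q) :
    D e s (S (t k) * Y) (s (t k) * q) := by
  induction h with
  | base σ h =>
    rw [S_mul, ← R.sm k σ h]
    exact D.base _ (ok_mul k h)
  | step Y q A a h _ hl ih =>
    refine D.step _ _ (tr k A) (act (t k) a) (ok_tr k h) ?_ ?_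
    · rwa [V_T', e_T R k h]
    · rwa [V_T', N_T, N_T]

lemma D_T' (R : Rel e s) (k : Fin 3) {Y : E3} {q : Q} (h : D e s (S (t k) * Y) (s (t k) * q)) :
    D e s Y q := by
  have := D_T R k h
  rwa [T_T, R.s_t_t] at this

/-- closure under all moves below the height `h` -/
def Cl (e : St → L → Q) (s : SP → Q) (h : ℕ) : Prop :=
  ∀ Y q A a, ok A a = true → N Y < h → D e s Y q → D e s (V A a * Y) (e A a * q)

/-- transfer across a peak -/
def Tr (e : St → L → Q) (s : SP → Q) (A : St) (a : L) (B : St) (b : L) : Prop :=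
  ∀ Y q, Cl e s (N Y) → N (V A a * Y) ≤ N Y → N (V B b * Y) < N Y →
    D e s (V B b * Y) (e B b * q) → D e s (V A a * Y) (e A a * q)

lemma Tr_T (R : Rel e s) (k : Fin 3) {A B : St} {a b : L} (hA : ok A a = true)
    (hB : ok B b = true) (h : Tr e s (tr k A) (act (t k) a) (tr k B) (act (t k) b)) :
    Tr e s A a B b := by
  intro Y q hc h1 h2 hd
  have := h (S (t k) * Y) (s (t k) * q) (by rwa [N_T]) (by rwa [V_T', N_T, N_T])
    (by rwa [V_T', N_T, N_T]) (by rw [V_T', e_T R k hB]; exact D_T R k hd)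
  rw [V_T', e_T R k hA] at this
  exact D_T' R k this

lemma sub_iff {A B : St} : sub A B = true ↔ ∀ y, A y = true → B y = true := by
  simp only [sub, List.all_eq_true, Bool.or_eq_true, Bool.not_eq_true']
  refine ⟨fun h y hy => ?_, fun h y _ => ?_⟩
  · rcases h y (mem_lets y) with k | k
    · rw [hy] at k; cases k
    · exact k
  · cases k : A y
    · exact Or.inl rfl
    · exact Or.inr (h y k)

lemma dis_iff {A B : St} : dis A B = true ↔ ∀ y, A y = true → B y = false := by
  simp only [dis, List.all_eq_true, Bool.not_eq_true']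
  refine ⟨fun h y hy => ?_, fun h y _ => ?_⟩
  · simpa [hy] using h y (mem_lets y)
  · cases k : A y
    · rfl
    · simpa using h y k

lemma compat_iff {A B : St} : compat A B = true ↔ (∀ y, A y = true → B y = false) ∨
    (∀ y, A y = true → B y = true) ∨ (∀ y, B y = true → A y = true) := by
  simp only [compat, Bool.or_eq_true, sub_iff, dis_iff]

lemma compat_tr (k : Fin 3) {A B : St} (h : compat A B = true) :
    compat (tr k A) (tr k B) = true := by
  rw [compat_iff] at h ⊢
  rcases h with h | h | h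
  · exact Or.inl fun y => h _
  · exact Or.inr (Or.inl fun y => h _)
  · exact Or.inr (Or.inr fun y => h _)

lemma sep_tr (k : Fin 3) (A : St) (b : L) : sep (tr k A) (act (t k) b) = sep A b := by
  simp only [sep, tr, ← act_iv, act_t_t]

/-- pairs of moves joined by one relation -/
def Dir (A : St) (a : L) (B : St) (b : L) : Prop :=
  ok A a = true ∧ ok B b = true ∧ compat A B = true ∧
    (a.1 = b.1 ∨ A = B ∨ (sep A b && sep B a) = false)

lemma Dir_T (k : Fin 3) {A B : St} {a b : L} (h : Dir A a B b) :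
    Dir (tr k A) (act (t k) a) (tr k B) (act (t k) b) := by
  obtain ⟨h1, h2, h3, h4⟩ := h
  refine ⟨ok_tr k h1, ok_tr k h2, compat_tr k h3, ?_⟩
  rw [act_t_fst, sep_tr, sep_tr]
  rcases h4 with h | h | h
  · exact Or.inl h
  · exact Or.inr (Or.inl (by rw [h]))
  · exact Or.inr (Or.inr h)

lemma Tr_norm (R : Rel e s) {A B : St} {b : L} (h : Dir A x0 B b) (hb : b.1 = 0 ∨ b = x1) :
    Tr e s A x0 B b := by
  obtain ⟨hA, hB, hc, h4⟩ := h
  intro Y q cl h1 h2 hd
  rcases hb with hb | rfl
  · obtain ⟨i, c⟩ := b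
    obtain rfl : i = 0 := hb
    obtain ⟨k1, k2⟩ := V_r1 hA hB hc
    rw [k2, R.r1 A B c hA hB hc, mul_assoc, mul_assoc]
    exact cl _ _ _ _ k1 h2 hd
  · rcases h4 with h | rfl | h
    · exact absurd h (by decide)
    · obtain ⟨k1, k2⟩ := V_r5 hA hB
      rw [k2, R.r5 A hA hB]
      simp only [mul_assoc]
      exact D_T R _ (D_T R _ (cl _ _ _ _ k1 h2 hd))
    · obtain ⟨k1, k2, k3⟩ := V_r2 hA hB hc h
      have hN := N_r2 hA hB hc h Y
      refine D.step _ _ _ _ k1 ?_ (by omega)
      rw [← mul_assoc, ← mul_assoc, k3, R.r2 A B hA hB hc h, mul_assoc, mul_assoc]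
      exact cl _ _ _ _ k2 h2 hd

lemma Tr_dir (R : Rel e s) {A B : St} {a b : L} (h : Dir A a B b) : Tr e s A a B b := by
  obtain ⟨w, h1, h2⟩ := exists_norm a b
  induction w generalizing A B a b with
  | nil =>
    obtain rfl : a = x0 := h1
    exact Tr_norm R h h2
  | cons k w ih => exact Tr_T R k h.1 h.2.1 (ih (Dir_T k h) h1 h2)

lemma compat_self (A : St) : compat A A = true := compat_iff.2 (Or.inr (Or.inl fun _ h => h))

lemma ok_of_sep {A : St} {b : L} (h : sep A b = true) : ∃ c, c.1 = b.1 ∧ ok A c = true := by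
  cases k : A b
  · exact ⟨iv b, rfl, by simpa [ok, sep, k] using h⟩
  · exact ⟨b, rfl, by simpa [ok, sep, k] using h⟩

lemma Tr_compat (R : Rel e s) {A B : St} {a b : L} (hA : ok A a = true) (hB : ok B b = true)
    (hc : compat A B = true) : Tr e s A a B b := by
  cases h : (sep A b && sep B a)
  · exact Tr_dir R ⟨hA, hB, hc, Or.inr (Or.inr h)⟩
  · rw [Bool.and_eq_true] at h
    obtain ⟨b', eb, hb⟩ := ok_of_sep h.1
    obtain ⟨a', ea, ha⟩ := ok_of_sep h.2
    intro Y q cl h1 h2 hd
    have n1 := N_V hA Y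
    have n2 := N_V hB Y
    have n3 := N_V hb Y
    have n4 := N_V ha Y
    rw [eb] at n3
    rw [ea] at n4
    by_cases k : N (V B a' * Y) < N Y
    · exact Tr_dir R ⟨hA, ha, hc, Or.inl ea.symm⟩ Y q cl h1 k
        (Tr_dir R ⟨ha, hB, compat_self B, Or.inr (Or.inl rfl)⟩ Y q cl k.le h2 hd)
    · have k' : N (V A b' * Y) < N Y := by omega
      exact Tr_dir R ⟨hA, hb, compat_self A, Or.inr (Or.inl rfl)⟩ Y q cl h1 k'
        (Tr_dir R ⟨hb, hB, hc, Or.inl eb⟩ Y q cl k'.le h2 hd)

lemma corner {A B : St} {a b : L} (hA : ok A a = true) (hB : ok B b = true) (Y : E3)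
    (h1 : cap A Y ≤ len a.1 Y) (h2 : cap B Y < len b.1 Y) :
    ∃ C c, ok C c = true ∧ compat A C = true ∧ compat C B = true ∧ cap C Y < len c.1 Y := by
  by_contra hn
  have H : ∀ C c, compat A C = true → compat C B = true → ok C c = true →
      len c.1 Y ≤ cap C Y := fun C c k1 k2 k3 => not_lt.1 fun k4 => hn ⟨C, c, k3, k1, k2, k4⟩
  have c1 := fun c => H (fun y => A y && B y) c
    (compat_iff.2 (Or.inr (Or.inr fun y => by simp +contextual)))
    (compat_iff.2 (Or.inr (Or.inl fun y => by simp +contextual)))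
  have c2 := fun c => H (fun y => A y || B y) c
    (compat_iff.2 (Or.inr (Or.inl fun y => by simp +contextual)))
    (compat_iff.2 (Or.inr (Or.inr fun y => by simp +contextual)))
  have c3 := fun c => H (fun y => A y && !B y) c
    (compat_iff.2 (Or.inr (Or.inr fun y => by simp +contextual)))
    (compat_iff.2 (Or.inl fun y => by simp +contextual))
  have c4 := fun c => H (fun y => B y && !A y) c
    (compat_iff.2 (Or.inl fun y => by simp +contextual))
    (compat_iff.2 (Or.inr (Or.inl fun y => by simp +contextual)))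
  have s1 := cap_sub A B Y
  have s2 := cap_pos A B Y
  obtain ⟨a1, a2⟩ := ok_iff.1 hA
  obtain ⟨b1, b2⟩ := ok_iff.1 hB
  have d1 := c1 a
  have d2 := c1 b
  have d3 := c2 a
  have d4 := c2 b
  have d5 := c3 a
  have d6 := c3 (iv b)
  have d7 := c4 (iv a)
  have d8 := c4 b
  clear c1 c2 c3 c4 H hn
  simp only [ok, iv_iv, iv_fst, a1, a2, b1, b2] at d1 d2 d3 d4 d5 d6 d7 d8
  generalize B a = p1, B (iv a) = p2, A b = p3, A (iv b) = p4 at *
  cases p1 <;> cases p2 <;> cases p3 <;> cases p4 <;> simp at d1 d2 d3 d4 d5 d6 d7 d8 <;> omega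

lemma Tr_all (R : Rel e s) {A B : St} {a b : L} (hA : ok A a = true) (hB : ok B b = true) :
    Tr e s A a B b := by
  intro Y q cl h1 h2 hd
  have n1 := N_V hA Y
  have n2 := N_V hB Y
  obtain ⟨C, c, hC, k1, k2, k3⟩ := corner hA hB Y (by omega) (by omega)
  have n3 := N_V hC Y
  have k : N (V C c * Y) < N Y := by omega
  exact Tr_compat R hA hC k1 Y q cl h1 k (Tr_compat R hC hB k2 Y q cl k.le h2 hd)

lemma V_inv' {A : St} {a : L} (h : ok A a = true) (Y : E3) :
    V (flip A a) (iv a) * (V A a * Y) = Y := by rw [← mul_assoc, V_inv h, one_mul]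

lemma Rel.inv' (R : Rel e s) {A : St} {a : L} (h : ok A a = true) (q : Q) :
    e (flip A a) (iv a) * (e A a * q) = q := by rw [← mul_assoc, R.inv A a h, one_mul]

lemma Cl_all (R : Rel e s) (h : ℕ) : Cl e s h := by
  induction h with
  | zero => intro Y q A a _ k; omega
  | succ h ih =>
    intro Y q A a hA hY hd
    by_cases k : N Y < h
    · exact ih Y q A a hA k hd
    have eh : N Y = h := by omega
    by_cases k1 : N Y < N (V A a * Y)
    · refine D.step _ _ _ _ (ok_flip hA) ?_ ?_
      · rwa [V_inv' hA, R.inv' hA]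
      · rwa [V_inv' hA]
    · cases hd with
      | base σ hσ =>
        obtain ⟨-, rfl⟩ := base_triv hσ hA (not_lt.1 k1)
        rw [V_sg, R.tr, one_mul, one_mul]
        exact D.base σ hσ
      | step _ _ B b hB hd hl => exact Tr_all R hA hB Y q (eh ▸ ih) (not_lt.1 k1) hl hd

lemma D_V (R : Rel e s) {A : St} {a : L} (h : ok A a = true) {Y : E3} {q : Q} (hd : D e s Y q) :
    D e s (V A a * Y) (e A a * q) := Cl_all R (N Y + 1) Y q A a h (Nat.lt_succ_self _) hd

lemma D_fun (R : Rel e s) {Y : E3} {q : Q} (h : D e s Y q) : ∀ q', D e s Y q' → q = q' := by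
  induction h with
  | base σ hσ =>
    intro q' h'
    generalize hY : S σ = Y at h'
    cases h' with
    | base τ _ => rw [S_inj hY]
    | step _ _ A a hA _ hl =>
      subst hY
      exact absurd (base_triv hσ hA hl.le).1 (not_le.2 hl)
  | step Y q A a hA _ _ ih => exact fun q' h' => mul_left_cancel (ih _ (D_V R hA h'))

/-- `X` acts on the relation through `p` -/
def Act (e : St → L → Q) (s : SP → Q) (X : E3) (p : Q) : Prop :=
  ∀ Y q, D e s Y q ↔ D e s (X * Y) (p * q)

lemma Act.mul {X X' : E3} {p p' : Q} (h : Act e s X p) (h' : Act e s X' p') :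
    Act e s (X * X') (p * p') := fun Y q => by
  rw [mul_assoc, mul_assoc, ← h, ← h']

lemma Act_one : Act e s 1 1 := fun Y q => by rw [one_mul, one_mul]

lemma Act_V (R : Rel e s) {A : St} {a : L} (h : ok A a = true) : Act e s (V A a) (e A a) :=
  fun Y q => ⟨D_V R h, fun k => by
    have := D_V R (ok_flip h) k
    rwa [V_inv' h, R.inv' h] at this⟩

lemma Act_S (R : Rel e s) {σ : SP} (h : okS σ = true) : Act e s (S σ) (s σ) := by
  obtain ⟨w, rfl⟩ := exists_word h
  clear h
  induction w with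
  | nil => rw [evS, S_one, R.s_one]; exact Act_one
  | cons k w ih =>
    rw [evS, ← S_mul, R.sm k _ (ok_evS w)]
    exact Act.mul (fun Y q => ⟨D_T R k, D_T' R k⟩) ih

lemma Act.uniq (R : Rel e s) {X : E3} {p p' : Q} (h : Act e s X p) (h' : Act e s X p') :
    p = p' := by
  have k : D e s (S oneS) (s oneS) := D.base _ (by decide)
  exact mul_right_cancel (D_fun R ((h _ _).1 k) _ ((h' _ _).1 k))

/-- an automorphism as an endomorphism -/
def toE (α : MulAut F3) : E3 := α.toMonoidHom

lemma toE_mul (α β : MulAut F3) : toE (α * β) = toE α * toE β := rfl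

lemma toE_one : toE 1 = 1 := rfl

lemma toE_V {α : MulAut F3} {A : St} {a : L}
    (h : ∀ i, α (of i) = FreeGroup.mk (wV A a (i, true))) : toE α = V A a :=
  end_ext fun i => (h i).trans (hom_of _ i).symm

lemma toE_S {α : MulAut F3} {σ : SP} (h : ∀ i, α (of i) = FreeGroup.mk [gen σ i]) :
    toE α = S σ := end_ext fun i => (h i).trans (S_of σ i).symm

/-- the automorphisms that act on the relation -/
def good (e : St → L → Q) (s : SP → Q) : Subgroup (MulAut F3) where
  carrier := {α | ∃ p, Act e s (toE α) p}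
  one_mem' := ⟨1, Act_one⟩
  mul_mem' := by
    rintro α β ⟨p, h⟩ ⟨p', h'⟩
    exact ⟨p * p', h.mul h'⟩
  inv_mem' := by
    rintro α ⟨p, h⟩
    refine ⟨p⁻¹, fun Y q => ?_⟩
    rw [h (toE α⁻¹ * Y), ← mul_assoc, ← toE_mul, mul_inv_cancel, toE_one, one_mul,
      mul_inv_cancel_left]

lemma good_top (R : Rel e s) : good e s = ⊤ := by
  refine H28.sniel (Fin 3) _ ?_ ?_ ?_
  · intro α a b hab h1 h2
    have hA : ok (fun y => !y.2 && (y.1 == a || y.1 == b)) (b, false) = true := by simp [ok, iv]
    refine ⟨_, toE_V (fun i => ?_) ▸ Act_V R hA⟩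
    by_cases hi : i = a
    · subst hi
      rw [h1]
      simp [wV, iv, hab, of]
    · rw [h2 i hi]
      by_cases hb : i = b <;> simp [wV, iv, hi, hb, of]
  · intro α a h1 h2
    have hσ : okS ((0, a != 0), (1, a != 1), (2, a != 2)) = true := rfl
    refine ⟨_, toE_S (fun i => ?_) ▸ Act_S R hσ⟩
    by_cases hi : i = a
    · subst hi
      rw [h1]
      fin_cases i <;> rfl
    · rw [h2 i hi]
      fin_cases i <;> fin_cases a <;> first | rfl | exact absurd rfl hi
  · intro α σ h
    have hσ : okS ((σ 0, true), (σ 1, true), (σ 2, true)) = true := by simp [okS]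
    refine ⟨_, toE_S (fun i => ?_) ▸ Act_S R hσ⟩
    rw [h]
    fin_cases i <;> rfl

theorem spres : SPres := by
  intro Q _ e s R
  have h : ∀ α : MulAut F3, ∃ p, Act e s (toE α) p := fun α =>
    (show α ∈ good e s by rw [good_top R]; trivial)
  choose f hf using h
  refine ⟨MonoidHom.mk' f fun α β => (hf (α * β)).uniq R ((hf α).mul (hf β)), ?_, ?_⟩
  · intro α A a hA hα
    exact (hf α).uniq R (toE_V hα ▸ Act_V R hA)
  · intro α σ hσ hα
    exact (hf α).uniq R (toE_S hα ▸ Act_S R hσ)

end Pool.Agent.MP_3ce0a0_al.H15
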