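import Pool.Agent.MP_3ce0a0_al.H15.T10

/-! `Out F_3` embeds in `Out F_7`: Nielsen moves go to pairs of opposite half twists of the sphere
with eight punctures; a double cover recovers the automorphism. -/

namespace Pool.Agent.MP_3ce0a0_al.H15

open FreeGroup H79

/-- images of the seven generators -/
def tab7 : List (List (Fin 7 × Wd (Fin 7))) :=
  [[],
   [],
   [(5, [(4, true), (2, true), (5, false), (0, true)]),
    (6, [(4, true), (3, true), (6, false), (1, true)])],
   [(5, [(0, true), (5, false), (4, true), (2, true)]),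
    (6, [(1, true), (6, false), (4, true), (3, true)])],
   [(4, [(0, true), (5, false), (1, true), (3, false), (4, false), (5, true), (2, false)]),
    (5, [(0, true), (5, false), (1, true), (6, false), (5, true)]),
    (6, [(0, true), (5, false), (1, true)])],
   [(4, [(1, true), (6, false), (0, true), (2, false), (4, false), (6, true), (3, false)]),
    (5, [(1, true), (6, false), (0, true)]),
    (6, [(1, true), (6, false), (0, true), (5, false), (6, true)])],
   [],
   [],
   [(0, [(2, false)]), (1, [(3, false)]), (2, [(2, true), (0, false), (2, false)]),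
    (3, [(3, true), (1, false), (3, false)]), (5, [(5, true), (0, false), (2, false)]),
    (6, [(6, true), (1, false), (3, false)])],
   [(0, [(0, true), (2, false), (0, false)]), (1, [(1, true), (3, false), (1, false)]),
    (2, [(0, false)]), (3, [(1, false)]), (5, [(5, true), (2, false), (0, false)]),
    (6, [(6, true), (3, false), (1, false)])],
   [(0, [(1, false)]), (1, [(1, false), (0, false), (1, true)]), (2, [(3, false)]),
    (3, [(3, false), (2, false), (3, true)]),
    (4, [(1, false), (0, false), (4, true), (2, true), (3, true)]),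
    (5, [(1, false), (0, false), (5, true)]), (6, [(1, false), (0, false), (6, true)])],
   [(0, [(0, false), (1, false), (0, true)]), (1, [(0, false)]),
    (2, [(2, false), (3, false), (2, true)]), (3, [(2, false)]),
    (4, [(0, false), (1, false), (4, true), (3, true), (2, true)]),
    (5, [(0, false), (1, false), (5, true)]), (6, [(0, false), (1, false), (6, true)])],
   [(2, [(4, false), (5, true), (2, false)]), (3, [(4, false), (6, true), (3, false)])],
   [(2, [(2, false), (4, false), (5, true)]), (3, [(3, false), (4, false), (6, true)])],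
   [],
   [],
   [(2, [(2, false), (3, false), (2, true)]), (3, [(2, false)]),
    (4, [(5, true), (2, false), (4, false), (6, true), (2, true)])],
   [(2, [(3, false)]), (3, [(3, false), (2, false), (3, true)]),
    (4, [(6, true), (3, false), (4, false), (5, true), (3, true)])],
   [(0, [(5, true), (0, false)]), (1, [(6, true), (1, false)])],
   [(0, [(0, false), (5, true)]), (1, [(1, false), (6, true)])],
   [],
   [],
   [(0, [(0, false), (1, false), (0, true)]), (1, [(0, false)]),
    (4, [(0, false), (6, false), (0, true), (5, false), (4, true)]),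
    (5, [(0, false), (6, false), (0, true)]),
    (6, [(0, false), (6, false), (0, true), (5, false), (6, true)])],
   [(0, [(1, false)]), (1, [(1, false), (0, false), (1, true)]),
    (4, [(1, false), (5, false), (1, true), (6, false), (4, true)]),
    (5, [(1, false), (5, false), (1, true), (6, false), (5, true)]),
    (6, [(1, false), (5, false), (1, true)])],
   [(1, [(1, false), (6, true)]), (3, [(3, false), (4, false), (6, true)])],
   [(1, [(6, true), (1, false)]), (3, [(4, false), (6, true), (3, false)])],
   [(1, [(1, true), (3, false), (1, false)]), (3, [(1, false)]),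
    (6, [(1, true), (6, false), (4, true), (1, false)])],
   [(1, [(3, false)]), (3, [(3, true), (1, false), (3, false)]),
    (6, [(4, true), (3, true), (6, false), (3, false)])],
   [],
   [],
   [(0, [(0, false), (5, true)]), (2, [(2, false), (4, false), (5, true)])],
   [(0, [(5, true), (0, false)]), (2, [(4, false), (5, true), (2, false)])],
   [(0, [(0, true), (2, false), (0, false)]), (2, [(0, false)]),
    (5, [(0, true), (5, false), (4, true), (0, false)])],
   [(0, [(2, false)]), (2, [(2, true), (0, false), (2, false)]),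
    (5, [(4, true), (2, true), (5, false), (2, false)])],
   [],
   [],
   [(0, [(0, true), (5, false)]), (1, [(1, true), (6, false)]),
    (2, [(4, true), (2, true), (5, false)]), (3, [(4, true), (3, true), (6, false)]),
    (4, [(4, false)]), (5, [(5, false)]), (6, [(6, false)])],
   [(0, [(0, false)]), (1, [(0, false), (1, false), (0, true)]), (2, [(0, false), (5, true)]),
    (3, [(0, false), (6, true), (1, false), (0, true)]), (4, [(0, false), (4, false), (0, true)]),
    (5, [(0, false), (2, true)]), (6, [(0, false), (3, true), (1, false), (0, true)])],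
   [(0, [(0, false)]), (1, [(2, false)]), (2, [(1, false)]), (3, [(3, false)]),
    (4, [(5, false), (6, true)]), (5, [(5, false)]), (6, [(5, false), (4, true)])]]

/-- sheet exchange and correcting words -/
def semi7 : List (Bool × Wd (Fin 3) × Wd (Fin 3)) :=
  [(false, [], []), (false, [], []), (false, [], []), (false, [], []), (false, [], []),
   (false, [], []), (false, [], []), (false, [], []), (false, [(1, true)], []),
   (false, [(1, false)], []), (false, [], [(2, true)]), (false, [], [(2, false)]),
   (false, [], []), (false, [], []), (false, [], []), (false, [], []), (false, [], []),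
   (false, [], []), (false, [(0, true)], []), (false, [(0, false)], []), (false, [], []),
   (false, [], []), (false, [(2, true)], []), (false, [(2, false)], []), (false, [], []),
   (false, [], []), (false, [], []), (false, [], []), (false, [], []), (false, [], []),
   (false, [], [(0, true)]), (false, [], [(0, false)]), (false, [], [(1, true)]),
   (false, [], [(1, false)]), (false, [], []), (false, [], []), (false, [(0, true)], []),
   (true, [], []), (true, [], [])]

/-- parity and labels of the two lifts of each generator -/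
def lab7 : List (Bool × Wd (Fin 3) × Wd (Fin 3)) :=
  [(true, [], []), (true, [(2, true)], [(2, false)]), (true, [(1, false)], [(1, true)]),
   (true, [(2, true), (1, false)], [(1, true), (2, false)]),
   (false, [(0, true), (1, true), (0, false), (1, false)], []),
   (false, [(0, true)], [(0, false)]), (false, [(0, true)], [(2, true), (0, false), (2, false)])]

/-- words whose first lift is a generator -/
def lift7 : List (Wd (Fin 7)) :=
  [[(5, true)], [(2, true), (0, true)], [(0, true), (1, true)]]

/-- a word with one trivial and one nontrivial lift -/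
def ker7 : Wd (Fin 7) := [(5, true), (6, false)]

/-- the table -/
def tb7 : Gm → Fin 7 → Wd (Fin 7) := rd tab7

/-- the seven indices -/
def l7 : List (Fin 7) := [0, 1, 2, 3, 4, 5, 6]

lemma mem7 (i : Fin 7) : i ∈ l7 := by revert i; decide

lemma inv7 : InvT tb7 := by
  have h : allG.all (fun γ => l7.all fun i =>
      evT tb7 [γ, ginv γ] [(i, true)] == [(i, true)]) = true := by decide +kernel
  intro γ i
  simpa using List.all_eq_true.1 (all_G h γ) i (mem7 i)

/-- the first half of a word -/
def half (w : Wd (Fin 7)) : Wd (Fin 7) := w.take (w.length / 2)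

/-- the candidate conjugator -/
def cj7 (g : List Gm) : Wd (Fin 7) :=
  half (evT tb7 g [(0, true)]) ++ half (reduce (invRev (half (evT tb7 g [(0, true)])) ++
    (evT tb7 g [(1, true)] ++ half (evT tb7 g [(0, true)]))))

/-- test for inner automorphisms -/
def inner7 (g : List Gm) : Bool :=
  l7.all fun i => evT tb7 g [(i, true)] == reduce (cj7 g ++ [(i, true)] ++ invRev (cj7 g))

lemma inner7_sound {g : List Gm} (h : inner7 g = true) :
    evQ (au inv7) g ∈ Inn (FreeGroup (Fin 7)) := by
  refine ⟨FreeGroup.mk (cj7 g), aut_ext fun i => ?_⟩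
  change FreeGroup.mk (cj7 g) * FreeGroup.mk [(i, true)] * (FreeGroup.mk (cj7 g))⁻¹ =
    evQ (au inv7) g (FreeGroup.mk [(i, true)])
  have k : evT tb7 g [(i, true)] = reduce (cj7 g ++ [(i, true)] ++ invRev (cj7 g)) := by
    simpa only [beq_iff_eq] using List.all_eq_true.1 h i (mem7 i)
  rw [evQ_au, k, reduce.self, inv_mk, mul_mk, mul_mk]

lemma rel7 : relW.all (fun r => inner7 (winv r.1 ++ r.2)) = true := by decide +kernel

lemma inn7 : ∀ i, inner7 (wI i) = true := by decide +kernel

/-- two copies of the free group of rank three -/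
abbrev XX : Type := Bool × F3

/-- semilinear permutations -/
def sl (α : MulAut F3) (δ : Bool) (c : Bool → F3) : Equiv.Perm XX where
  toFun p := (p.1 != δ, c p.1 * α p.2)
  invFun p := (p.1 != δ, α.symm ((c (p.1 != δ))⁻¹ * p.2))
  left_inv p := by obtain ⟨b, x⟩ := p; cases b <;> cases δ <;> simp
  right_inv p := by obtain ⟨b, x⟩ := p; cases b <;> cases δ <;> simp

/-- choose a word -/
def pick (d : Bool × Wd (Fin 3) × Wd (Fin 3)) (b : Bool) : Wd (Fin 3) :=
  if b then d.2.2 else d.2.1

/-- data of a generator of the free group of rank seven -/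
def lb (i : Fin 7) : Bool × Wd (Fin 3) × Wd (Fin 3) := lab7.getD i.1 (false, [], [])

/-- data of a Nielsen generator -/
def sm7 (γ : Gm) : Bool × Wd (Fin 3) × Wd (Fin 3) := semi7.getD (ix γ) (false, [], [])

/-- the action on the two copies -/
def Th : FreeGroup (Fin 7) →* Equiv.Perm XX :=
  FreeGroup.lift fun i => sl 1 (lb i).1 fun b => FreeGroup.mk (pick (lb i) b)

/-- one step of the computation of the action -/
def st7 (y : Fin 7 × Bool) (r : Bool × Wd (Fin 3)) : Bool × Wd (Fin 3) :=
  (r.1 != (lb y.1).1,
    (if y.2 then pick (lb y.1) r.1 else invRev (pick (lb y.1) (r.1 != (lb y.1).1))) ++ r.2)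

/-- the action of a word -/
def run (w : Wd (Fin 7)) (b : Bool) : Bool × Wd (Fin 3) := w.foldr st7 (b, [])

lemma Th_of (i : Fin 7) (b : Bool) (x : F3) :
    Th (of i) (b, x) = (b != (lb i).1, FreeGroup.mk (pick (lb i) b) * x) := by
  rw [Th, lift_apply_of]; rfl

lemma Th_mk (w : Wd (Fin 7)) (b : Bool) (x : F3) :
    Th (FreeGroup.mk w) (b, x) = ((run w b).1, FreeGroup.mk (run w b).2 * x) := by
  induction w with
  | nil => rw [← one_eq_mk, _root_.map_one]; simp [run, ← one_eq_mk]
  | cons y w ih =>
    have e : FreeGroup.mk (y :: w) = FreeGroup.mk [y] * FreeGroup.mk w := by rw [mul_mk]; rfl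
    have e2 : run (y :: w) b = st7 y (run w b) := rfl
    rw [e, _root_.map_mul, Equiv.Perm.mul_apply, ih, e2, st7, ← mul_mk]
    obtain ⟨i, c⟩ := y
    cases c
    · have : FreeGroup.mk [(i, false)] = (of i)⁻¹ := rfl
      rw [this, _root_.map_inv, Equiv.Perm.inv_eq_iff_eq, Th_of]
      simp [← inv_mk, mul_assoc, -mul_mk]
    · exact (Th_of i _ _).trans (by simp [mul_assoc, -mul_mk])

/-- `u` is `α`-semilinear -/
def SL (α : MulAut F3) (u : Equiv.Perm XX) : Prop :=
  ∀ b x z, u (b, x * z) = ((u (b, x)).1, (u (b, x)).2 * α z)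

lemma SL.mul {α β : MulAut F3} {u v : Equiv.Perm XX} (h : SL α u) (k : SL β v) :
    SL (α * β) (u * v) := fun b x z => by
  simp only [Equiv.Perm.mul_apply, MulAut.mul_apply]
  rw [k, h]

lemma SL_Th (y : FreeGroup (Fin 7)) : SL 1 (Th y) := fun b x z => by
  rw [← mk_toWord (x := y), Th_mk, Th_mk, mul_assoc]; rfl

/-- `ψ` covers `α` -/
def Cov (α : MulAut F3) (ψ : MulAut (FreeGroup (Fin 7))) : Prop :=
  ∃ u, SL α u ∧ ∀ y, Th (ψ y) * u = u * Th y

lemma cov_gen (γ : Gm) : Cov (au3 γ) (au inv7 γ) := by
  have h : allG.all (fun γ => l7.all fun i => bb.all fun b =>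
      (run (tb7 γ i) (b != (sm7 γ).1)).1 == ((b != (lb i).1) != (sm7 γ).1) &&
      reduce ((run (tb7 γ i) (b != (sm7 γ).1)).2 ++ pick (sm7 γ) b) ==
        reduce (pick (sm7 γ) (b != (lb i).1) ++ (pick (lb i) b).flatMap (xt (tb3 γ)))) = true := by
    decide +kernel
  let u := sl (au3 γ) (sm7 γ).1 fun b => FreeGroup.mk (pick (sm7 γ) b)
  have hu : ∀ b x, u (b, x) = (b != (sm7 γ).1, FreeGroup.mk (pick (sm7 γ) b) * au3 γ x) :=
    fun _ _ => rfl
  refine ⟨u, fun b x z => by rw [hu, hu, _root_.map_mul, mul_assoc], fun y => ?_⟩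
  have : Th.comp (au inv7 γ).toMonoidHom = (MulAut.conj u).toMonoidHom.comp Th := by
    refine FreeGroup.ext_hom _ _ fun i => ?_
    change Th (au inv7 γ (of i)) = u * Th (of i) * u⁻¹
    rw [eq_mul_inv_iff_mul_eq]
    refine Equiv.ext fun ⟨b, x⟩ => ?_
    have k := List.all_eq_true.1 (List.all_eq_true.1 (all_G h γ) i (mem7 i)) b (mem_bb b)
    simp only [Bool.and_eq_true, beq_iff_eq] at k
    have k2 := reduce.exact k.2
    rw [← mul_mk, ← mul_mk, ← au_mk inv3] at k2
    rw [Equiv.Perm.mul_apply, Equiv.Perm.mul_apply, Th_of, hu, hu, au_of, Th_mk, k.1,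
      ← mul_assoc, k2, _root_.map_mul, mul_assoc]
    rfl
  have k : Th (au inv7 γ y) = u * Th y * u⁻¹ := DFunLike.congr_fun this y
  rw [k, inv_mul_cancel_right]

lemma cov_word (g : List Gm) : Cov (evQ au3 g) (evQ (au inv7) g) := by
  induction g with
  | nil => exact ⟨1, fun _ _ _ => rfl, fun y => by simp [evQ_nil]⟩
  | cons γ g ih =>
    obtain ⟨w, s1, hw⟩ := ih
    obtain ⟨v, s2, hv⟩ := cov_gen γ
    refine ⟨v * w, s2.mul s1, fun y => ?_⟩
    rw [evQ_cons, MulAut.mul_apply, ← mul_assoc, hv, mul_assoc, hw, mul_assoc]

lemma cov_inner {α : MulAut F3} {v : FreeGroup (Fin 7)} (h : Cov α (MulAut.conj v)) :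
    α ∈ Inn F3 := by
  obtain ⟨u, s1, hu⟩ := h
  have s2 : SL α (Th v⁻¹ * u) := by simpa using (SL_Th v⁻¹).mul s1
  have c : ∀ y, Th y * (Th v⁻¹ * u) = Th v⁻¹ * u * Th y := fun y => by
    rw [mul_assoc, ← hu, MulAut.conj_apply]
    simp only [_root_.map_mul, _root_.map_inv]
    group
  generalize Th v⁻¹ * u = w at s2 c
  have key : ∀ y : Wd (Fin 7), (run y false).1 = false →
      FreeGroup.mk (run y (w (false, 1)).1).2 * (w (false, 1)).2 =
        (w (false, 1)).2 * α (FreeGroup.mk (run y false).2) := fun y hy => by
    have k := congrArg (fun p : Equiv.Perm XX => (p (false, 1)).2) (c (FreeGroup.mk y))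
    simp only [Equiv.Perm.mul_apply] at k
    rw [Th_mk y false, hy, mul_one, ← one_mul (FreeGroup.mk (run y false).2), s2] at k
    exact (congrArg Prod.snd (Th_mk y _ _)).symm.trans k
  cases hb : (w (false, 1)).1
  · refine ⟨((w (false, 1)).2)⁻¹, aut_ext fun i => ?_⟩
    have e : ∀ i : Fin 3, run (lift7.getD i.1 []) false = (false, [(i, true)]) := by
      decide +kernel
    have k := key (lift7.getD i.1 []) (by rw [e])
    rw [hb, e] at k
    rw [MulAut.conj_apply, inv_inv, mul_assoc, inv_mul_eq_iff_eq_mul]
    exact k
  · have k := key ker7 (by decide +kernel)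
    have e1 : FreeGroup.mk (run ker7 false).2 = 1 :=
      reduce.exact (L₂ := []) (by decide +kernel)
    rw [hb, e1, _root_.map_one, mul_one, mul_eq_right] at k
    exact absurd (reduce.sound (L₂ := []) k) (by decide +kernel)

theorem emb7 : ∃ f : Out F3 →* Out (FreeGroup (Fin 7)), Function.Injective f := by
  let π := QuotientGroup.mk' (Inn (FreeGroup (Fin 7)))
  refine descend (fun γ => π (au inv7 γ)) (fun r hr => ?_) (fun i => ?_) fun g hg => ?_
  · rw [← evQ_map, ← evQ_map]
    have k := inner7_sound (List.all_eq_true.1 rel7 r hr)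
    rw [evQ_append, evQ_winv (au_ginv inv7)] at k
    exact QuotientGroup.eq.2 k
  · rw [← evQ_map]
    exact (QuotientGroup.eq_one_iff _).2 (inner7_sound (inn7 i))
  · rw [← evQ_map] at hg
    obtain ⟨v, hv⟩ := (QuotientGroup.eq_one_iff _).1 hg
    exact cov_inner (v := v) (hv ▸ cov_word g)

end Pool.Agent.MP_3ce0a0_al.H15
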