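import Pool.Agent.MP_3ce0a0_al.H79.SpecT

/-! The structure tree of a nested family of cuts. -/

namespace Pool.Agent.MP_3ce0a0_al.H15

open Pointwise Pool.Agent.MP_3ce0a0_al.H79

variable {E : Type}

/-- the midpoint of the edge `D`, as the set of half spaces containing it. -/
def pr (𝒞 : Set (Set E)) (D : Set E) : Set (Set E) := {C | C ∈ 𝒞 ∧ (D ⊂ C ∨ Dᶜ ⊂ C)}

/-- the terminal vertex of the edge `D`. -/
def ta (𝒞 : Set (Set E)) (D : Set E) : Set (Set E) := insert D (pr 𝒞 D)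

structure Nest (𝒞 : Set (Set E)) : Prop where
  co : ∀ C ∈ 𝒞, Cᶜ ∈ 𝒞
  ne : ∀ C ∈ 𝒞, C.Nonempty
  nest : ∀ C ∈ 𝒞, ∀ D ∈ 𝒞, C ⊆ D ∨ C ⊆ Dᶜ ∨ Cᶜ ⊆ D ∨ Cᶜ ⊆ Dᶜ
  fin : ∀ x y : E, {C | C ∈ 𝒞 ∧ x ∈ C ∧ y ∉ C}.Finite

variable {𝒞 : Set (Set E)}

theorem pr_compl (D : Set E) : pr 𝒞 Dᶜ = pr 𝒞 D := by
  ext C; simp only [pr, Set.mem_ofPred_eq, compl_compl, or_comm]

theorem Nest.nsub (N : Nest 𝒞) {C : Set E} (hC : C ∈ 𝒞) : ¬C ⊆ Cᶜ := fun h => by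
  obtain ⟨x, hx⟩ := N.ne C hC
  exact h hx hx

theorem Nest.nsub' (N : Nest 𝒞) {C : Set E} (hC : C ∈ 𝒞) : ¬Cᶜ ⊆ C := fun h => by
  obtain ⟨x, hx⟩ := N.ne _ (N.co C hC)
  exact hx (h hx)

theorem Nest.not_pr (N : Nest 𝒞) {D : Set E} (hD : D ∈ 𝒞) : D ∉ pr 𝒞 D := by
  rintro ⟨-, h | h⟩
  · exact h.ne rfl
  · exact N.nsub' hD h.subset

theorem Nest.dich (N : Nest 𝒞) {C D : Set E} (hC : C ∈ 𝒞) (hD : D ∈ 𝒞) (h1 : C ≠ D)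
    (h2 : C ≠ Dᶜ) : C ∈ pr 𝒞 D ∨ Cᶜ ∈ pr 𝒞 D := by
  have h3 : D ≠ Cᶜ := fun h => h2 (by rw [h, compl_compl])
  have h4 : Dᶜ ≠ Cᶜ := fun h => h1 (compl_injective h).symm
  rcases N.nest D hD C hC with h | h | h | h
  · exact Or.inl ⟨hC, Or.inl (h.ssubset_of_ne h1.symm)⟩
  · exact Or.inr ⟨N.co C hC, Or.inl (h.ssubset_of_ne h3)⟩
  · exact Or.inl ⟨hC, Or.inr (h.ssubset_of_ne h2.symm)⟩
  · exact Or.inr ⟨N.co C hC, Or.inr (h.ssubset_of_ne h4)⟩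

theorem mem_ta {C D : Set E} (hD : D ∈ 𝒞) : C ∈ ta 𝒞 D ↔ C ∈ 𝒞 ∧ (D ⊆ C ∨ Dᶜ ⊂ C) := by
  constructor
  · rintro (rfl | ⟨h, h1 | h1⟩)
    · exact ⟨hD, Or.inl subset_rfl⟩
    · exact ⟨h, Or.inl h1.subset⟩
    · exact ⟨h, Or.inr h1⟩
  · rintro ⟨h, h1 | h1⟩
    · rcases h1.eq_or_ssubset with h2 | h2
      · exact Or.inl h2.symm
      · exact Or.inr ⟨h, Or.inl h2⟩
    · exact Or.inr ⟨h, Or.inr h1⟩

theorem Nest.ta_dich (N : Nest 𝒞) {C D : Set E} (hC : C ∈ 𝒞) (hD : D ∈ 𝒞) :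
    C ∈ ta 𝒞 D ∨ Cᶜ ∈ ta 𝒞 D := by
  by_cases h1 : C = D
  · exact Or.inl (Or.inl h1)
  by_cases h2 : C = Dᶜ
  · exact Or.inr (Or.inl (by rw [h2, compl_compl]))
  exact (N.dich hC hD h1 h2).imp Or.inr Or.inr

theorem Nest.ta_excl (N : Nest 𝒞) {C D : Set E} (hD : D ∈ 𝒞) (h1 : C ∈ ta 𝒞 D)
    (h2 : Cᶜ ∈ ta 𝒞 D) : False := by
  obtain ⟨-, h1 | h1⟩ := (mem_ta hD).1 h1 <;> obtain ⟨-, h2 | h2⟩ := (mem_ta hD).1 h2
  · obtain ⟨x, hx⟩ := N.ne D hD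
    exact h2 hx (h1 hx)
  · exact h2.not_subset (Set.compl_subset_compl.2 h1)
  · exact h1.not_subset (Set.subset_compl_comm.1 h2)
  · obtain ⟨x, hx⟩ := N.ne _ (N.co D hD)
    exact h2.subset hx (h1.subset hx)

theorem Nest.ta_eq (N : Nest 𝒞) {C D : Set E} (hC : C ∈ 𝒞) (hD : D ∈ 𝒞) (h : D ⊂ C)
    (hm : ∀ F ∈ 𝒞, D ⊂ F → ¬F ⊂ C) : ta 𝒞 Dᶜ = ta 𝒞 C := by
  have hD' := N.co D hD
  have key : ta 𝒞 C ⊆ ta 𝒞 Dᶜ := fun F hF => by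
    obtain ⟨hF, h1 | h1⟩ := (mem_ta hC).1 hF
    · exact (mem_ta hD').2 ⟨hF, Or.inr (by rw [compl_compl]; exact h.trans_subset h1)⟩
    · refine (N.ta_dich hF hD').resolve_right fun h2 => ?_
      obtain ⟨hF', h2 | h2⟩ := (mem_ta hD').1 h2
      · exact N.nsub' hC (h1.subset.trans ((Set.compl_subset_compl.1 h2).trans h.subset))
      · rw [compl_compl] at h2
        refine hm _ hF' h2 ⟨Set.compl_subset_comm.1 h1.subset, fun h3 => ?_⟩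
        exact h1.not_subset (Set.subset_compl_comm.1 h3)
  refine Set.Subset.antisymm (fun F hF => ?_) key
  exact (N.ta_dich ((mem_ta hD').1 hF).1 hC).resolve_right fun h2 => N.ta_excl hD' hF (key h2)

theorem Nest.itv (N : Nest 𝒞) {C D : Set E} (hC : C ∈ 𝒞) (hD : D ∈ 𝒞) :
    {F | F ∈ 𝒞 ∧ D ⊆ F ∧ F ⊆ C}.Finite := by
  obtain ⟨x, hx⟩ := N.ne D hD
  obtain ⟨y, hy⟩ := N.ne _ (N.co C hC)
  exact (N.fin x y).subset fun F hF => ⟨hF.1, hF.2.1 hx, fun h => hy (hF.2.2 h)⟩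

theorem Nest.exmax (N : Nest 𝒞) {C D : Set E} (hC : C ∈ 𝒞) (hD : D ∈ 𝒞) (h : D ⊂ C) :
    ∃ M ∈ 𝒞, D ⊆ M ∧ M ⊂ C ∧ ∀ F ∈ 𝒞, M ⊂ F → ¬F ⊂ C := by
  have hf : {F | F ∈ 𝒞 ∧ D ⊆ F ∧ F ⊂ C}.Finite :=
    (N.itv hC hD).subset fun F hF => ⟨hF.1, hF.2.1, hF.2.2.subset⟩
  obtain ⟨M, hM, hmax⟩ := hf.exists_maximal ⟨D, hD, subset_rfl, h⟩
  exact ⟨M, hM.1, hM.2.1, hM.2.2, fun F hF h1 h2 =>
    h1.not_subset (hmax ⟨hF, hM.2.1.trans h1.subset, h2⟩ h1.subset)⟩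

theorem Nest.link (N : Nest 𝒞) (L : 𝒞 → 𝒞 → Prop) (hL : Equivalence L)
    (h1 : ∀ C D : 𝒞, pr 𝒞 C = pr 𝒞 D → L C D) (h2 : ∀ C D : 𝒞, ta 𝒞 C = ta 𝒞 D → L C D)
    (C D : 𝒞) : L C D := by
  have key : ∀ (n : ℕ) (C D : 𝒞), D.1 ⊆ C.1 → {F | F ∈ 𝒞 ∧ D.1 ⊆ F ∧ F ⊆ C.1}.ncard = n →
      L D C := by
    intro n
    induction n using Nat.strong_induction_on with
    | _ n ih =>
      intro C D h hn
      rcases h.eq_or_ssubset with h3 | h3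
      · rw [Subtype.ext h3]; exact hL.refl _
      obtain ⟨M, hM, a1, a2, a3⟩ := N.exmax C.2 D.2 h3
      have b1 : L D ⟨M, hM⟩ := by
        refine ih _ ?_ ⟨M, hM⟩ D a1 rfl
        rw [← hn]
        refine Set.ncard_lt_ncard ⟨fun F hF => ⟨hF.1, hF.2.1, hF.2.2.trans a2.subset⟩,
          fun h4 => a2.not_subset (h4 ⟨C.2, h, subset_rfl⟩).2.2⟩ (N.itv C.2 D.2)
      exact hL.trans b1 (hL.trans (h1 _ ⟨Mᶜ, N.co M hM⟩ (pr_compl M).symm)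
        (h2 _ _ (N.ta_eq C.2 hM a2 a3)))
  have c1 : L C ⟨C.1ᶜ, N.co _ C.2⟩ := h1 _ _ (pr_compl _).symm
  have d1 : L D ⟨D.1ᶜ, N.co _ D.2⟩ := h1 _ _ (pr_compl _).symm
  rcases N.nest C C.2 D D.2 with h | h | h | h
  · exact key _ D C h rfl
  · exact hL.trans (key _ ⟨D.1ᶜ, N.co _ D.2⟩ C h rfl) (hL.symm d1)
  · exact hL.trans c1 (key _ D ⟨C.1ᶜ, N.co _ C.2⟩ h rfl)
  · exact hL.trans c1 (hL.trans (key _ ⟨D.1ᶜ, N.co _ D.2⟩ ⟨C.1ᶜ, N.co _ C.2⟩ h rfl) (hL.symm d1))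

theorem lnk_equiv {V Ed : Type} (o t : Ed → V) (P : Ed → Prop) : Equivalence (Lnk o t P) where
  refl _ := Relation.ReflTransGen.refl
  symm h := by
    induction h with
    | refl => exact Relation.ReflTransGen.refl
    | tail _ h2 ih =>
      obtain ⟨e, he, h3⟩ := h2
      exact Relation.ReflTransGen.head ⟨e, he, h3.symm⟩ ih
  trans h1 h2 := Relation.ReflTransGen.trans h1 h2

variable [Group E]

theorem ssub_smul (g : E) (A B : Set E) : g • A ⊂ B ↔ A ⊂ g⁻¹ • B := by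
  rw [Set.ssubset_def, Set.ssubset_def, Set.smul_set_subset_iff_subset_inv_smul_set,
    Set.subset_smul_set_iff (a := g)]

theorem pr_smul (h2 : ∀ (g : E), ∀ C ∈ 𝒞, g • C ∈ 𝒞) (g : E) (D : Set E) :
    pr 𝒞 (g • D) = g • pr 𝒞 D := by
  ext C
  rw [Set.mem_smul_set_iff_inv_smul_mem]
  simp only [pr, Set.mem_ofPred_eq, ← Set.smul_set_compl, ssub_smul]
  refine and_congr_left fun _ => ⟨h2 _ _, fun h => ?_⟩
  simpa using h2 g _ h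

theorem ta_smul (h2 : ∀ (g : E), ∀ C ∈ 𝒞, g • C ∈ 𝒞) (g : E) (D : Set E) :
    ta 𝒞 (g • D) = g • ta 𝒞 D := by
  rw [ta, ta, pr_smul h2, Set.smul_set_insert]

theorem spl_ex {f : E} {C : Set E} (h : Spl f C) (x y : E) :
    ∃ k : ℕ, x ∈ f⁻¹ ^ k • C ∧ y ∈ f⁻¹ ^ k • C ∧ x ∉ f ^ k • C ∧ y ∉ f ^ k • C := by
  obtain ⟨k, a1, a2, a3, a4⟩ := ((h x).1.and ((h y).1.and ((h x).2.and (h y).2))).exists
  refine ⟨k, ?_, ?_, ?_, ?_⟩ <;> rw [Set.mem_smul_set_iff_inv_smul_mem, smul_eq_mul, ← inv_pow]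
  · rwa [inv_inv]
  · rwa [inv_inv]
  · exact a3
  · exact a4

theorem Nest.free (N : Nest 𝒞) (h2 : ∀ (g : E), ∀ C ∈ 𝒞, g • C ∈ 𝒞) {f : E} {C D : Set E}
    (hC : C ∈ 𝒞) (hD : D ∈ 𝒞) (h : Spl f C) {S : Set (Set E)} (s1 : pr 𝒞 D ⊆ S)
    (s2 : S ⊆ ta 𝒞 D) : f • S ≠ S := by
  intro hf
  have hk : ∀ k : ℕ, f ^ k • S = S := fun k => by
    induction k with
    | zero => simp
    | succ k ih => rw [pow_succ, mul_smul, hf, ih]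
  obtain ⟨x, hx⟩ := N.ne D hD
  obtain ⟨y, hy⟩ := N.ne _ (N.co D hD)
  obtain ⟨k, a1, a2, a3, a4⟩ := spl_ex h x y
  have b1 : f⁻¹ ^ k • C ∈ S := by
    refine s1 ((N.dich (h2 _ _ hC) hD ?_ ?_).resolve_right ?_)
    · intro e; rw [e] at a2; exact hy a2
    · intro e; rw [e] at a1; exact a1 hx
    · rintro ⟨-, b | b⟩
      · exact b.subset hx a1
      · exact b.subset hy a2
  have b2 : C ∈ S := by
    rw [← hk k, Set.mem_smul_set_iff_inv_smul_mem, ← inv_pow]; exact b1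
  have b3 : f ^ k • C ∈ S := by
    rw [← hk k]; exact Set.smul_mem_smul_set b2
  obtain ⟨-, b | b⟩ := (mem_ta hD).1 (s2 b3)
  · exact a3 (b hx)
  · exact a4 (b.subset hy)

theorem Nest.below (N : Nest 𝒞) (h2 : ∀ (g : E), ∀ C ∈ 𝒞, g • C ∈ 𝒞) {f : E} {C : Set E}
    (hC : C ∈ 𝒞) (h : Spl f C) : ∃ D ∈ 𝒞, D ⊂ C := by
  obtain ⟨x, hx⟩ := N.ne C hC
  obtain ⟨y, hy⟩ := N.ne _ (N.co C hC)
  obtain ⟨k, -, -, a3, a4⟩ := spl_ex h x y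
  refine ⟨f ^ k • C, h2 _ _ hC, ?_, fun b => a3 (b hx)⟩
  rcases N.nest C hC _ (h2 (f ^ k) _ hC) with b | b | b | b
  · exact absurd (b hx) a3
  · obtain ⟨j, c1, c2⟩ := ((h 1).1.and (h (f ^ k)).1).exists
    refine absurd ?_ (b c2)
    rw [pow_mul_comm, ← smul_eq_mul]
    exact Set.smul_mem_smul_set (by simpa using c1)
  · exact absurd (b hy) a4
  · exact Set.compl_subset_compl.1 b

/-- the action on an invariant subset. -/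
@[reducible] def subAct {X : Type} [MulAction E X] (A : Set X)
    (h : ∀ (g : E), ∀ x ∈ A, g • x ∈ A) : MulAction E A where
  smul g x := ⟨g • x.1, h g _ x.2⟩
  one_smul _ := Subtype.ext (one_smul _ _)
  mul_smul _ _ _ := Subtype.ext (mul_smul _ _ _)

theorem stree : STree := by
  intro E _ Fs 𝒞 _ hnt ⟨h1, h2, h3, h4, h5, _, h7, h8⟩
  have N : Nest 𝒞 := ⟨h1, fun C hC => by
    obtain ⟨f, -, -, hf⟩ := h8 C hC
    exact ⟨_, (hf 1).1.exists.choose_spec⟩, h3, h4⟩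
  let VS : Set (Set (Set E)) := {S | ∃ D ∈ 𝒞, S = pr 𝒞 D ∨ S = ta 𝒞 D}
  have hV : ∀ (g : E), ∀ S ∈ VS, g • S ∈ VS := by
    rintro g S ⟨D, hD, rfl | rfl⟩
    · exact ⟨_, h2 g D hD, Or.inl (pr_smul h2 g D).symm⟩
    · exact ⟨_, h2 g D hD, Or.inr (ta_smul h2 g D).symm⟩
  let o : 𝒞 → VS := fun D => ⟨pr 𝒞 D, D, D.2, Or.inl rfl⟩
  let t : 𝒞 → VS := fun D => ⟨ta 𝒞 D, D, D.2, Or.inr rfl⟩
  have hL := lnk_equiv o t fun _ => True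
  have l1 : ∀ D, Lnk o t (fun _ => True) (o D) (t D) := fun D =>
    Relation.ReflTransGen.single ⟨D, trivial, Or.inl ⟨rfl, rfl⟩⟩
  have l2 : ∀ C D, Lnk o t (fun _ => True) (o C) (o D) :=
    N.link (fun C D => Lnk o t (fun _ => True) (o C) (o D))
      ⟨fun _ => hL.refl _, hL.symm, hL.trans⟩
      (fun C D h => by
        have : o C = o D := Subtype.ext h
        rw [this]; exact hL.refl _)
      (fun C D h => by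
        have : t C = t D := Subtype.ext h
        exact hL.trans (l1 C) (this ▸ hL.symm (l1 D)))
  have l3 : ∀ v : VS, ∃ D, Lnk o t (fun _ => True) (o D) v := by
    rintro ⟨S, D, hD, rfl | rfl⟩
    · exact ⟨⟨D, hD⟩, hL.refl _⟩
    · exact ⟨⟨D, hD⟩, l1 _⟩
  refine ⟨VS, 𝒞, subAct VS hV, subAct 𝒞 h2, o, t, fun C => {S | C.1 ∈ S.1},
    ⟨fun g e => Subtype.ext (pr_smul h2 g e), fun g e => Subtype.ext (ta_smul h2 g e), ?_,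
      fun u v => ?_, fun e => ⟨Or.inl rfl, N.not_pr e.2, fun e' he => ?_⟩⟩,
    fun f hf v hv => ?_, ?_, ?_⟩
  · obtain ⟨f, hf, hf1⟩ := hnt
    obtain ⟨C, hC, -⟩ := h7 f hf hf1
    exact ⟨o ⟨C, hC⟩⟩
  · obtain ⟨C, hC⟩ := l3 u
    obtain ⟨D, hD⟩ := l3 v
    exact hL.trans (hL.symm hC) (hL.trans (l2 C D) hD)
  · exact ⟨Or.inr, fun h => h.resolve_left fun h' => he (Subtype.ext h').symm⟩
  · by_contra hf1
    obtain ⟨C, hC, hs⟩ := h7 f hf hf1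
    obtain ⟨S, D, hD, rfl | rfl⟩ := v
    · exact N.free h2 hC hD hs subset_rfl (Set.subset_insert _ _) (congrArg Subtype.val hv)
    · exact N.free h2 hC hD hs (Set.subset_insert _ _) subset_rfl (congrArg Subtype.val hv)
  · obtain ⟨R, hR, h⟩ := h5
    refine ⟨Subtype.val ⁻¹' R, hR.preimage Subtype.val_injective.injOn, fun e => ?_⟩
    obtain ⟨f, hf, D, hD, he⟩ := h e e.2
    have hD' : D ∈ 𝒞 := by
      have := h2 f⁻¹ _ e.2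
      rwa [he, inv_smul_smul] at this
    exact ⟨f, hf, ⟨D, hD'⟩, hD, Subtype.ext he⟩
  · rintro ⟨S, D, hD, rfl | rfl⟩
    · refine ⟨⟨D, hD⟩, ⟨Dᶜ, h1 D hD⟩, fun h => N.nsub hD (congrArg Subtype.val h).subset,
        Or.inl rfl, Or.inl (Subtype.ext (pr_compl D))⟩
    · obtain ⟨f, -, -, hf⟩ := h8 D hD
      obtain ⟨F, hF, hFD⟩ := N.below h2 hD hf
      obtain ⟨M, hM, -, a2, a3⟩ := N.exmax hD hF hFD
      refine ⟨⟨D, hD⟩, ⟨Mᶜ, h1 M hM⟩, fun h => N.nsub hM (a2.subset.trans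
        (congrArg Subtype.val h).subset), Or.inr rfl, Or.inr (Subtype.ext (N.ta_eq hD hM a2 a3))⟩

end Pool.Agent.MP_3ce0a0_al.H15
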